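import Pool.Agent.Helper10_SA.InitW

/-! SA, module CONTR: contraction of the ratios in the quiet stretch. -/

namespace SA.H10

/-- the sum over a quiet stretch -/
theorem quiet_sum {T z : ℝ} {κ : ℕ → ℕ} {N : ℕ} {S y : ℕ → ℝ} {D : ℕ → ℕ → ℝ}
    (hD : DualSol T z κ N S y D) (r : ℕ) : ∀ m, r ≤ 56 → (∀ j, m ≤ j → j < m + r → κ j = 0) →
    D m r = ∑ l ∈ Finset.range r, (S (m + l) + y (m + l)) := by
  induction r with
  | zero =>
    intro m _ _
    simp [hD.D_zero]
  | succ r ih =>
    intro m hr hq
    have h0 : κ m = 0 := hq m le_rfl (by omega)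
    rw [hD.D_search m (r + 1) (by omega) (by rw [h0]; omega), Nat.add_sub_cancel,
      ih (m + 1) (by omega) (fun j h1 h2 => hq j (by omega) (by omega)), Finset.sum_range_succ']
    have h1 : ∀ l ∈ Finset.range r, S (m + 1 + l) + y (m + 1 + l) =
        S (m + (l + 1)) + y (m + (l + 1)) := by
      intro l _
      rw [show m + 1 + l = m + (l + 1) by omega]
    rw [Finset.sum_congr rfl h1, add_zero]
    ring

/-- splitting off the last terms -/
theorem sum_split (f : ℕ → ℝ) (K J : ℕ) (hJ : J ≤ K) : ∑ l ∈ Finset.range K, f l =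
    ∑ l ∈ Finset.range (K - J), f l + ∑ j ∈ Finset.range J, f (K - (j + 1)) := by
  induction J with
  | zero => simp
  | succ J ih =>
    rw [ih (by omega), show K - J = (K - (J + 1)) + 1 by omega, Finset.sum_range_succ,
      Finset.sum_range_succ _ J]
    ring

/-- one round of the contraction -/
theorem round {T z : ℝ} {κ : ℕ → ℕ} {N : ℕ} {S y : ℕ → ℝ} {D : ℕ → ℕ → ℝ} (hlo : Tlo ≤ T)
    (hhi : T ≤ Thi) (hD : DualSol T z κ N S y D) {a b a' b' α β p r : ℝ} {J J' : ℕ}
    (hα0 : 0 ≤ α) (hβ0 : 0 ≤ β) (hp0 : 0 ≤ p) (hr0 : 0 ≤ r)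
    (hα : (α - 1) * (36954776204 / 1000000000) ≤ a)
    (hβ : b ≤ (β - 1) * (36954776203 / 1000000000)) (hα1 : 1 ≤ α)
    (hp : 1 ≤ p * α) (hr : r * β ≤ 1) (hJ : J ≤ 56) (hJ' : J' ≤ 56)
    (u1 : ∑ j ∈ Finset.range J, β ^ (j + 1) ≤ 36954776203 / 1000000000)
    (u2 : ∑ l ∈ Finset.range (56 - J), p ^ l + 36954776204 / 1000000000 +
      r ^ 56 * (∑ j ∈ Finset.range J, β ^ (j + 1) - 36954776203 / 1000000000) ≤ 56 * b')
    (l1 : ∑ j ∈ Finset.range J', α ^ (j + 1) ≤ 36954776203 / 1000000000)
    (l2 : 56 * a' ≤ ∑ l ∈ Finset.range (56 - J'), r ^ l + 36954776203 / 1000000000 +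
      p ^ 56 * (∑ j ∈ Finset.range J', α ^ (j + 1) - 36954776204 / 1000000000))
    {n : ℕ} (hq : ∀ j, n ≤ j → j ≤ n + 56 → κ j = 0)
    (hu : ∀ j, n < j → j ≤ n + 56 → a * S (j + 1) ≤ y j ∧ y j ≤ b * S (j + 1)) :
    a' * S (n + 1) ≤ y n ∧ y n ≤ b' * S (n + 1) := by
  obtain ⟨hTA, hTB⟩ := T_bounds hlo hhi
  have hT : 0 < T := by linarith
  set m := n + 1 with hm
  -- one step
  have st : ∀ l < 56, S (m + l + 1) * α ≤ S (m + l) ∧ S (m + l) ≤ S (m + l + 1) * β := by
    intro l hl
    obtain ⟨h1, h2⟩ := hu (m + l) (by omega) (by omega)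
    have h3 := hD.S_step (m + l)
    have h4 := hD.S_pos (m + l + 1)
    constructor
    · have h5 : (α - 1) * T ≤ a := by
        have := mul_le_mul_of_nonneg_left hTB (by linarith : 0 ≤ α - 1)
        linarith
      have h6 : (α - 1) * S (m + l + 1) ≤ y (m + l) / T := by
        rw [le_div_iff₀ hT]
        have := mul_le_mul_of_nonneg_right h5 h4.le
        linarith
      linarith
    · have h7 : 0 < β - 1 ∨ β - 1 ≤ 0 := lt_or_ge _ _
      have h5 : b ≤ (β - 1) * T ∨ β - 1 ≤ 0 := by
        rcases h7 with h | h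
        · left
          have := mul_le_mul_of_nonneg_left hTA h.le
          linarith
        · exact Or.inr h
      have h8 : 0 < y (m + l) := hD.y_pos _
      rcases h5 with h5 | h5
      · have h6 : y (m + l) / T ≤ (β - 1) * S (m + l + 1) := by
          rw [div_le_iff₀ hT]
          have := mul_le_mul_of_nonneg_right h5 h4.le
          linarith
        linarith
      · exfalso
        have h9 : b ≤ 0 := by
          have : (β - 1) * (36954776203 / 1000000000) ≤ 0 :=
            mul_nonpos_of_nonpos_of_nonneg h5 (by norm_num)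
          linarith
        have h10 : b * S (m + l + 1) ≤ 0 := mul_nonpos_of_nonpos_of_nonneg h9 h4.le
        linarith
  have hSm := hD.S_pos m
  have hSe := hD.S_pos (m + 56)
  -- powers from the left
  have pl : ∀ l ≤ 56, S (m + l) ≤ p ^ l * S m ∧ r ^ l * S m ≤ S (m + l) := by
    intro l
    induction l with
    | zero => simp
    | succ l ih =>
      intro hl
      obtain ⟨i1, i2⟩ := ih (by omega)
      obtain ⟨s1, s2⟩ := st l (by omega)
      have h4 := hD.S_pos (m + l + 1)
      constructor
      · have h1 : S (m + l + 1) ≤ p * S (m + l) := by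
          have h2 := mul_le_mul_of_nonneg_left s1 hp0
          have h3 := mul_le_mul_of_nonneg_right hp h4.le
          linarith
        have h5 := mul_le_mul_of_nonneg_left i1 hp0
        rw [pow_succ]
        change S (m + l + 1) ≤ _
        linarith
      · have h1 : r * S (m + l) ≤ S (m + l + 1) := by
          have h2 := mul_le_mul_of_nonneg_left s2 hr0
          have h3 := mul_le_mul_of_nonneg_right hr h4.le
          linarith
        have h5 := mul_le_mul_of_nonneg_left i2 hr0
        rw [pow_succ]
        change _ ≤ S (m + l + 1)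
        linarith
  -- powers from the right
  have pr : ∀ j ≤ 56, S (m + (56 - j)) ≤ β ^ j * S (m + 56) ∧
      α ^ j * S (m + 56) ≤ S (m + (56 - j)) := by
    intro j
    induction j with
    | zero => simp
    | succ j ih =>
      intro hj
      obtain ⟨i1, i2⟩ := ih (by omega)
      obtain ⟨s1, s2⟩ := st (56 - (j + 1)) (by omega)
      rw [show m + (56 - (j + 1)) + 1 = m + (56 - j) by omega] at s1 s2
      constructor
      · have h5 := mul_le_mul_of_nonneg_right i1 hβ0
        rw [pow_succ]
        linarith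
      · have h5 := mul_le_mul_of_nonneg_right i2 hα0
        rw [pow_succ]
        linarith
  -- the equation
  have hk0 : κ n = 0 := hq n le_rfl (by omega)
  have e1 : 56 * y n = D m 56 := by
    have h1 := hD.y_def n
    rw [hk0] at h1
    rw [h1]
    push_cast
    ring
  have e2 : ∀ K, ∑ l ∈ Finset.range K, y (m + l) = T * (S m - S (m + K)) := by
    intro K
    induction K with
    | zero => simp
    | succ K ih =>
      rw [Finset.sum_range_succ, ih]
      have h3 := hD.S_step (m + K)
      have h4 : y (m + K) = T * (S (m + K) - S (m + K + 1)) := by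
        rw [h3]
        field_simp
        ring
      rw [h4, show m + (K + 1) = m + K + 1 by omega]
      ring
  have e3 : 56 * y n = ∑ l ∈ Finset.range 56, S (m + l) + T * (S m - S (m + 56)) := by
    rw [e1, quiet_sum hD 56 m le_rfl (fun j h1 h2 => hq j (by omega) (by omega)),
      Finset.sum_add_distrib, e2]
  have hl56 := pl 56 le_rfl
  constructor
  · -- lower bound
    rw [sum_split (fun l => S (m + l)) 56 J' hJ'] at e3
    have h1 : (∑ l ∈ Finset.range (56 - J'), r ^ l) * S m ≤
        ∑ l ∈ Finset.range (56 - J'), S (m + l) := by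
      rw [Finset.sum_mul]
      refine Finset.sum_le_sum fun l hl => ?_
      rw [Finset.mem_range] at hl
      exact (pl l (by omega)).2
    have h2 : (∑ j ∈ Finset.range J', α ^ (j + 1)) * S (m + 56) ≤
        ∑ j ∈ Finset.range J', S (m + (56 - (j + 1))) := by
      rw [Finset.sum_mul]
      refine Finset.sum_le_sum fun j hj => ?_
      rw [Finset.mem_range] at hj
      exact (pr (j + 1) (by omega)).2
    set A := ∑ j ∈ Finset.range J', α ^ (j + 1) with hA
    set B := ∑ l ∈ Finset.range (56 - J'), r ^ l with hB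
    have h3 : (A - T) * (p ^ 56 * S m) ≤ (A - T) * S (m + 56) :=
      mul_le_mul_of_nonpos_left hl56.1 (by linarith)
    have h4 : (A - 36954776204 / 1000000000) * (p ^ 56 * S m) ≤ (A - T) * (p ^ 56 * S m) :=
      mul_le_mul_of_nonneg_right (by linarith) (by positivity)
    have h5 := mul_le_mul_of_nonneg_right l2 hSm.le
    have h6 := mul_le_mul_of_nonneg_right hTA hSm.le
    have h7 : 56 * (a' * S m) ≤ 56 * y n := by
      rw [e3]
      have e7 : (B + 36954776203 / 1000000000 + p ^ 56 * (A - 36954776204 / 1000000000)) * S m =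
          B * S m + 36954776203 / 1000000000 * S m +
            (A - 36954776204 / 1000000000) * (p ^ 56 * S m) := by ring
      rw [e7] at h5
      linarith
    linarith
  · rw [sum_split (fun l => S (m + l)) 56 J hJ] at e3
    have h1 : ∑ l ∈ Finset.range (56 - J), S (m + l) ≤
        (∑ l ∈ Finset.range (56 - J), p ^ l) * S m := by
      rw [Finset.sum_mul]
      refine Finset.sum_le_sum fun l hl => ?_
      rw [Finset.mem_range] at hl
      exact (pl l (by omega)).1
    have h2 : ∑ j ∈ Finset.range J, S (m + (56 - (j + 1))) ≤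
        (∑ j ∈ Finset.range J, β ^ (j + 1)) * S (m + 56) := by
      rw [Finset.sum_mul]
      refine Finset.sum_le_sum fun j hj => ?_
      rw [Finset.mem_range] at hj
      exact (pr (j + 1) (by omega)).1
    set A := ∑ j ∈ Finset.range J, β ^ (j + 1) with hA
    set B := ∑ l ∈ Finset.range (56 - J), p ^ l with hB
    have h3 : (A - T) * S (m + 56) ≤ (A - T) * (r ^ 56 * S m) :=
      mul_le_mul_of_nonpos_left hl56.2 (by linarith)
    have h4 : (A - T) * (r ^ 56 * S m) ≤ (A - 36954776203 / 1000000000) * (r ^ 56 * S m) :=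
      mul_le_mul_of_nonneg_right (by linarith) (by positivity)
    have h5 := mul_le_mul_of_nonneg_right u2 hSm.le
    have h6 := mul_le_mul_of_nonneg_right hTB hSm.le
    have h7 : 56 * y n ≤ 56 * (b' * S m) := by
      rw [e3]
      have e7 : (B + 36954776204 / 1000000000 + r ^ 56 * (A - 36954776203 / 1000000000)) * S m =
          B * S m + 36954776204 / 1000000000 * S m +
            (A - 36954776203 / 1000000000) * (r ^ 56 * S m) := by ring
      rw [e7] at h5
      linarith
    linarith

theorem contr : ContrStmt := by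
  intro T z κ N S y D hlo hhi hD hκ h0
  have r1 : ∀ n, 171 ≤ n → n ≤ 7943 → (1.00605 : ℝ) * S (n + 1) ≤ y n ∧ y n ≤ (1.06671 : ℝ) * S (n + 1) := by
    intro n h1 h2
    refine round hlo hhi hD (a := 0.87) (b := 1.2) (a' := 1.00605) (b' := 1.06671) (α := 1.02354228)
      (β := 1.03247213) (p := 0.97699922) (r := 0.96854914) (J := 24) (J' := 26) (by norm_num) (by norm_num)
      (by norm_num) (by norm_num) (by norm_num) (by norm_num) (by norm_num) (by norm_num)
      (by norm_num) (by norm_num) (by norm_num) ?_ ?_ ?_ ?_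
      (fun j h3 h4 => hκ j (by omega) (by omega))
      (fun j h3 h4 => h0 j (by omega))
    · norm_num [Finset.sum_range_succ]
    · norm_num [Finset.sum_range_succ]
    · norm_num [Finset.sum_range_succ]
    · norm_num [Finset.sum_range_succ]
  have r2 : ∀ n, 171 ≤ n → n ≤ 7886 → (1.02963 : ℝ) * S (n + 1) ≤ y n ∧ y n ≤ (1.04106 : ℝ) * S (n + 1) := by
    intro n h1 h2
    refine round hlo hhi hD (a := 1.00605) (b := 1.06671) (a' := 1.02963) (b' := 1.04106) (α := 1.02722381)
      (β := 1.02886529) (p := 0.97349769) (r := 0.97194453) (J := 24) (J' := 25) (by norm_num) (by norm_num)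
      (by norm_num) (by norm_num) (by norm_num) (by norm_num) (by norm_num) (by norm_num)
      (by norm_num) (by norm_num) (by norm_num) ?_ ?_ ?_ ?_
      (fun j h3 h4 => hκ j (by omega) (by omega))
      (fun j h3 h4 => r1 j (by omega) (by omega))
    · norm_num [Finset.sum_range_succ]
    · norm_num [Finset.sum_range_succ]
    · norm_num [Finset.sum_range_succ]
    · norm_num [Finset.sum_range_succ]
  have r3 : ∀ n, 171 ≤ n → n ≤ 7829 → (1.03422 : ℝ) * S (n + 1) ≤ y n ∧ y n ≤ (1.03631 : ℝ) * S (n + 1) := by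
    intro n h1 h2
    refine round hlo hhi hD (a := 1.02963) (b := 1.04106) (a' := 1.03422) (b' := 1.03631) (α := 1.02786189)
      (β := 1.02817119) (p := 0.97289336) (r := 0.97260068) (J := 25) (J' := 25) (by norm_num) (by norm_num)
      (by norm_num) (by norm_num) (by norm_num) (by norm_num) (by norm_num) (by norm_num)
      (by norm_num) (by norm_num) (by norm_num) ?_ ?_ ?_ ?_
      (fun j h3 h4 => hκ j (by omega) (by omega))
      (fun j h3 h4 => r2 j (by omega) (by omega))
    · norm_num [Finset.sum_range_succ]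
    · norm_num [Finset.sum_range_succ]
    · norm_num [Finset.sum_range_succ]
    · norm_num [Finset.sum_range_succ]
  have r4 : ∀ n, 171 ≤ n → n ≤ 7772 → (1.03508 : ℝ) * S (n + 1) ≤ y n ∧ y n ≤ (1.03547 : ℝ) * S (n + 1) := by
    intro n h1 h2
    refine round hlo hhi hD (a := 1.03422) (b := 1.03631) (a' := 1.03508) (b' := 1.03547) (α := 1.02798609)
      (β := 1.02804266) (p := 0.97277581) (r := 0.97272227) (J := 25) (J' := 25) (by norm_num) (by norm_num)
      (by norm_num) (by norm_num) (by norm_num) (by norm_num) (by norm_num) (by norm_num)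
      (by norm_num) (by norm_num) (by norm_num) ?_ ?_ ?_ ?_
      (fun j h3 h4 => hκ j (by omega) (by omega))
      (fun j h3 h4 => r3 j (by omega) (by omega))
    · norm_num [Finset.sum_range_succ]
    · norm_num [Finset.sum_range_succ]
    · norm_num [Finset.sum_range_succ]
    · norm_num [Finset.sum_range_succ]
  have r5 : ∀ n, 171 ≤ n → n ≤ 7715 → (1.03523 : ℝ) * S (n + 1) ≤ y n ∧ y n ≤ (1.03531 : ℝ) * S (n + 1) := by
    intro n h1 h2
    refine round hlo hhi hD (a := 1.03508) (b := 1.03547) (a' := 1.03523) (b' := 1.03531) (α := 1.02800937)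
      (β := 1.02801993) (p := 0.97275378) (r := 0.97274378) (J := 25) (J' := 25) (by norm_num) (by norm_num)
      (by norm_num) (by norm_num) (by norm_num) (by norm_num) (by norm_num) (by norm_num)
      (by norm_num) (by norm_num) (by norm_num) ?_ ?_ ?_ ?_
      (fun j h3 h4 => hκ j (by omega) (by omega))
      (fun j h3 h4 => r4 j (by omega) (by omega))
    · norm_num [Finset.sum_range_succ]
    · norm_num [Finset.sum_range_succ]
    · norm_num [Finset.sum_range_succ]
    · norm_num [Finset.sum_range_succ]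
  intro n h1 h2
  obtain ⟨h3, h4⟩ := r5 n h1 (by omega)
  have h6 := hD.S_pos (n + 1)
  constructor
  · refine le_trans (mul_le_mul_of_nonneg_right ?_ h6.le) h3
    norm_num
  · refine le_trans h4 (mul_le_mul_of_nonneg_right ?_ h6.le)
    norm_num

end SA.H10
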