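import Pool.Agent.Helper10_SA.GF

/-! SA, module DOM: the greedy flow has the largest potential. -/

namespace SA.H10

open Filter Topology

/-- closed form of the characteristic sequence -/
theorem gam_closed {T z : ℝ} (hz : z < 1) (r : ℕ) :
    gam T z r = r / (1 - z) ^ 2 -
      ∑ s ∈ Finset.range (r + 1), (1 - z ^ s) * (T / (1 - z) + 1 / (1 - z) ^ 2) := by
  have h1 : 1 - z ≠ 0 := by linarith
  have h2 : z - 1 ≠ 0 := by linarith
  have hsum : ∀ r : ℕ, z * ∑ s ∈ Finset.range (r + 1), (1 - z ^ s) =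
      ∑ s ∈ Finset.range (r + 2), (1 - z ^ s) - (r + 1) * (1 - z) := by
    intro r
    induction r with
    | zero =>
      simp [Finset.sum_range_succ]
      ring
    | succ r ih =>
      rw [Finset.sum_range_succ, mul_add, ih, Finset.sum_range_succ _ (r + 2)]
      push_cast
      ring
  induction r with
  | zero => simp [gam]
  | succ r ih =>
    have h3 : gam T z (r + 1) = z / (z - 1) ^ 2 - ((r : ℝ) + 1) * T + z * gam T z r := rfl
    rw [h3, ih, ← Finset.sum_mul, ← Finset.sum_mul]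
    have h4 := hsum r
    set A := ∑ s ∈ Finset.range (r + 1), (1 - z ^ s) with hA
    set B := ∑ s ∈ Finset.range (r + 2), (1 - z ^ s) with hB
    have h5 : (z - 1) ^ 2 = (1 - z) ^ 2 := by ring
    rw [h5]
    have h6 : B = z * A + (r + 1) * (1 - z) := by linarith
    rw [h6]
    push_cast
    field_simp
    ring

section

variable {T z : ℝ} (hT : 0 < T) (hz0 : 0 < z) (hz : z < 1) (κ : ℕ → ℕ) (N : ℕ)

/-- the dual sequences at state `n` -/
noncomputable def Sd (T z : ℝ) (κ : ℕ → ℕ) (N n : ℕ) : ℝ := (dprof T z κ N (N - n)).1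
noncomputable def Dd (T z : ℝ) (κ : ℕ → ℕ) (N n r : ℕ) : ℝ := (dprof T z κ N (N - n)).2 r
noncomputable def yd (T z : ℝ) (κ : ℕ → ℕ) (N n : ℕ) : ℝ :=
  Dd T z κ N (n + 1) (56 - κ n) / ((56 - κ n : ℕ) : ℝ)
noncomputable def Vd (T z : ℝ) (κ : ℕ → ℕ) (N n r : ℕ) : ℝ :=
  ∑ s ∈ Finset.range (r + 1), Dd T z κ N n s

theorem Sd_step {n : ℕ} (hn : n < N) : Sd T z κ N n = Sd T z κ N (n + 1) + yd T z κ N n / T := by
  unfold Sd yd Dd
  have h1 : N - n = (N - (n + 1)) + 1 := by omega
  have h2 : N - (N - (n + 1) + 1) = n := by omega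
  conv_lhs => rw [h1]
  simp only [dprof, dstep, h2]

theorem Dd_zero (n : ℕ) : Dd T z κ N n 0 = 0 := by
  unfold Dd
  cases N - n with
  | zero => simp [dprof, bdry]
  | succ m => simp [dprof, dstep]

theorem Dd_search {n r : ℕ} (hn : n < N) (h0 : r ≠ 0) (hr : r ≤ 56 - κ n) :
    Dd T z κ N n r = Sd T z κ N n + yd T z κ N n + Dd T z κ N (n + 1) (r - 1) := by
  rw [Sd_step κ N hn]
  unfold Sd yd Dd
  have h1 : N - n = (N - (n + 1)) + 1 := by omega
  have h2 : N - (N - (n + 1) + 1) = n := by omega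
  conv_lhs => rw [h1]
  simp only [dprof, dstep, h2]
  rw [if_neg h0, if_pos hr]

theorem Dd_wait {n r : ℕ} (hn : n < N) (h0 : r ≠ 0) (hr : 56 - κ n < r) :
    Dd T z κ N n r = Sd T z κ N n + Dd T z κ N (n + 1) r := by
  rw [Sd_step κ N hn]
  unfold Sd yd Dd
  have h1 : N - n = (N - (n + 1)) + 1 := by omega
  have h2 : N - (N - (n + 1) + 1) = n := by omega
  conv_lhs => rw [h1]
  simp only [dprof, dstep, h2]
  rw [if_neg h0, if_neg (by omega)]

theorem Vd_zero (n : ℕ) : Vd T z κ N n 0 = 0 := by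
  simp [Vd, Dd_zero]

theorem Vd_succ (n r : ℕ) : Vd T z κ N n (r + 1) = Vd T z κ N n r + Dd T z κ N n (r + 1) := by
  unfold Vd
  rw [Finset.sum_range_succ]

/-- searching is exact below the threshold -/
theorem Vd_search {n : ℕ} (hn : n < N) (r : ℕ) (hr : r ≤ 56 - κ n) :
    Vd T z κ N n r = r * Sd T z κ N n + r * yd T z κ N n + Vd T z κ N (n + 1) (r - 1) := by
  induction r with
  | zero => simp [Vd_zero]
  | succ r ih =>
    rw [Vd_succ, ih (by omega), Dd_search κ N hn (by omega) hr, Nat.add_sub_cancel]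
    rcases Nat.eq_zero_or_pos r with h | h
    · subst h
      simp [Vd_zero, Dd_zero]
    · obtain ⟨r', rfl⟩ : ∃ r', r = r' + 1 := ⟨r - 1, by omega⟩
      rw [Nat.add_sub_cancel, Vd_succ]
      push_cast
      ring

/-- waiting is exact above the threshold -/
theorem Vd_wait {n : ℕ} (hn : n < N) (hk : 0 < 56 - κ n) (r : ℕ) (hr : 56 - κ n ≤ r) :
    Vd T z κ N n r = r * Sd T z κ N n + Vd T z κ N (n + 1) r := by
  induction r, hr using Nat.le_induction with
  | base =>
    rw [Vd_search κ N hn _ le_rfl]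
    have h1 : ((56 - κ n : ℕ) : ℝ) * yd T z κ N n = Dd T z κ N (n + 1) (56 - κ n) := by
      unfold yd
      have : ((56 - κ n : ℕ) : ℝ) ≠ 0 := by exact_mod_cast hk.ne'
      field_simp
    obtain ⟨k, hk'⟩ : ∃ k, 56 - κ n = k + 1 := ⟨56 - κ n - 1, by omega⟩
    rw [hk'] at h1 ⊢
    rw [Nat.add_sub_cancel, Vd_succ, ← h1]
    ring
  | succ r hr ih =>
    rw [Vd_succ, ih, Dd_wait κ N hn (by omega) (by omega), Vd_succ]
    push_cast
    ring

include hT hz0 hz in
theorem pos (m : ℕ) : 0 ≤ (dprof T z κ N m).1 ∧ ∀ r, 0 ≤ (dprof T z κ N m).2 r := by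
  have hz1 : 0 < 1 - z := by linarith
  induction m with
  | zero =>
    refine ⟨?_, fun r => ?_⟩
    · simp only [dprof, bdry]
      positivity
    · simp only [dprof, bdry]
      have : z ^ r ≤ 1 := pow_le_one₀ hz0.le hz.le
      have h2 : 0 ≤ 1 - z ^ r := by linarith
      positivity
  | succ m ih =>
    obtain ⟨h1, h2⟩ := ih
    set k := 56 - κ (N - (m + 1)) with hk
    have h3 : 0 ≤ (dprof T z κ N m).2 k / k := div_nonneg (h2 k) (Nat.cast_nonneg k)
    have h4 : 0 ≤ (dprof T z κ N m).2 k / k / T := div_nonneg h3 hT.le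
    refine ⟨?_, fun r => ?_⟩
    · simp only [dprof, dstep]
      exact add_nonneg h1 h4
    · simp only [dprof, dstep]
      split_ifs
      · exact le_rfl
      · exact add_nonneg (add_nonneg (add_nonneg h1 h4) h3) (h2 _)
      · exact add_nonneg (add_nonneg h1 h4) (h2 _)

include hT hz0 hz in
theorem yd_nonneg (n : ℕ) : 0 ≤ yd T z κ N n :=
  div_nonneg ((pos hT hz0 hz κ N _).2 _) (Nat.cast_nonneg _)

include hz in
theorem Vd_end (r : ℕ) : Vd T z κ N N r = r / (1 - z) ^ 2 - gam T z r := by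
  rw [gam_closed hz]
  have : Vd T z κ N N r =
      ∑ s ∈ Finset.range (r + 1), (1 - z ^ s) * (T / (1 - z) + 1 / (1 - z) ^ 2) := by
    unfold Vd Dd
    rw [Nat.sub_self]
    rfl
  rw [this]
  ring

theorem Sd_end : Sd T z κ N N = 1 / (1 - z) := by
  unfold Sd
  rw [Nat.sub_self]
  rfl

/-- the certificate gives both Bellman inequalities -/
theorem wait_le (hW : Wcond T z κ N) {n : ℕ} (hn : n < N) (hk : 0 < 56 - κ n) {r : ℕ} (h1 : 1 ≤ r)
    (h56 : r ≤ 56) : Vd T z κ N n r ≤ r * Sd T z κ N n + Vd T z κ N (n + 1) r := by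
  rcases le_or_gt (56 - κ n) r with h | h
  · exact (Vd_wait κ N hn hk r h).le
  · rw [Vd_search κ N hn r h.le]
    obtain ⟨r', rfl⟩ : ∃ r', r = r' + 1 := ⟨r - 1, by omega⟩
    rw [Nat.add_sub_cancel, Vd_succ (n := n + 1)]
    have h2 := (hW (N - (n + 1)) (by omega) (r' + 1) h1 h56).1
    rw [show N - (N - (n + 1) + 1) = n by omega] at h2
    have h3 := h2 h.le
    have h4 : ((r' + 1 : ℕ) : ℝ) * yd T z κ N n ≤ Dd T z κ N (n + 1) (r' + 1) := h3
    linarith

theorem search_le (hW : Wcond T z κ N) {n : ℕ} (hn : n < N) (hk : 0 < 56 - κ n) {r : ℕ}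
    (h1 : 1 ≤ r) (h56 : r ≤ 56) : Vd T z κ N n r ≤
      r * Sd T z κ N n + r * yd T z κ N n + Vd T z κ N (n + 1) (r - 1) := by
  rcases le_or_gt r (56 - κ n) with h | h
  · exact (Vd_search κ N hn r h).le
  · rw [Vd_wait κ N hn hk r h.le]
    obtain ⟨r', rfl⟩ : ∃ r', r = r' + 1 := ⟨r - 1, by omega⟩
    rw [Nat.add_sub_cancel, Vd_succ (n := n + 1)]
    have h2 := (hW (N - (n + 1)) (by omega) (r' + 1) h1 h56).2
    rw [show N - (N - (n + 1) + 1) = n by omega] at h2
    have h3 := h2 h
    have h4 : Dd T z κ N (n + 1) (r' + 1) ≤ ((r' + 1 : ℕ) : ℝ) * yd T z κ N n := h3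
    linarith

end

/-- `kap` and the sorted barriers -/
theorem lt_kap_iff {T : ℝ} (n : ℕ) {j : ℕ} (hj : j < 56) :
    j < kap T n ↔ (gr T n).B < (gr T n).Q j := by
  unfold kap
  set F := (Finset.range 56).filter (fun j => (gr T n).B < (gr T n).Q j) with hF
  have hdown : ∀ i ∈ F, ∀ i' ≤ i, i' ∈ F := by
    intro i hi i' hii
    rw [hF, Finset.mem_filter, Finset.mem_range] at hi ⊢
    exact ⟨by omega, hi.2.trans_le (anti' n hii hi.1)⟩
  constructor
  · intro h
    by_contra hcon
    have hsub : F ⊆ Finset.range j := by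
      intro i hi
      rw [Finset.mem_range]
      by_contra hij
      have h1 := hdown i hi j (by omega)
      rw [hF, Finset.mem_filter] at h1
      exact hcon h1.2
    have := Finset.card_le_card hsub
    rw [Finset.card_range] at this
    omega
  · intro h
    have hj' : j ∈ F := by
      rw [hF, Finset.mem_filter, Finset.mem_range]
      exact ⟨hj, h⟩
    have hsub : Finset.range (j + 1) ⊆ F := by
      intro i hi
      rw [Finset.mem_range] at hi
      exact hdown j hj' i (by omega)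
    have := Finset.card_le_card hsub
    rw [Finset.card_range] at this
    omega

theorem kap_lt {T : ℝ} (hS : Struct T) (n : ℕ) : kap T n < 56 := by
  by_contra h
  have h1 := (lt_kap_iff (T := T) n (j := 55) (by norm_num)).1 (by omega)
  exact absurd h1 (not_lt.2 (hS.valid n))

/-- classes below the threshold search -/
theorem all_search {T : ℝ} {n r : ℕ} (h1 : 1 ≤ r) (hr : r < 56 - kap T n) :
    gmu T n r - gsg T n r = 0 := by
  have e1 : ¬ (gr T n).B < (gr T n).Q (55 - r) := fun h => by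
    have := (lt_kap_iff (T := T) n (j := 55 - r) (by omega)).2 h
    omega
  have e2 : ¬ (gr T n).B < (gr T n).Q (56 - r) := fun h => by
    have := (lt_kap_iff (T := T) n (j := 56 - r) (by omega)).2 h
    omega
  unfold gmu gsg
  rw [if_neg (by omega), if_pos (by omega), if_neg (by omega), if_pos (by omega),
    min_eq_right (not_lt.1 e1), min_eq_right (not_lt.1 e2)]
  ring

/-- classes above the threshold wait -/
theorem none_search {T : ℝ} {n r : ℕ} (h56 : r ≤ 56) (hr : 56 - kap T n < r) :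
    gsg T n r = 0 := by
  have e2 : (gr T n).B < (gr T n).Q (56 - r) :=
    (lt_kap_iff (T := T) n (j := 56 - r) (by omega)).1 (by omega)
  unfold gsg
  rw [if_neg (by omega)]
  rcases lt_or_eq_of_le h56 with h | h
  · have e1 : (gr T n).B < (gr T n).Q (55 - r) :=
      (lt_kap_iff (T := T) n (j := 55 - r) (by omega)).1 (by omega)
    rw [if_pos h, min_eq_left e1.le, min_eq_left e2.le, sub_self]
  · subst h
    rw [if_neg (lt_irrefl _), if_pos rfl]
    rw [Nat.sub_self] at e2
    rw [max_eq_right e2.le, sub_self]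

/-- the end value of the potential -/
theorem end_value {T z : ℝ} (hz : z < 1) (hg : gam T z 56 = 0) (κ : ℕ → ℕ) (N : ℕ)
    (mu : ℕ → ℕ → ℝ) : Sd T z κ N N * ∑ j ∈ Finset.range N, fR mu j +
      ∑ r ∈ Finset.range 57, mu N r * Vd T z κ N N r = 56 * T / (1 - z) - Om T z mu N := by
  have h1 : ∑ r ∈ Finset.range 57, mu N r * Vd T z κ N N r =
      fR mu N / (1 - z) ^ 2 - ∑ r ∈ Finset.range 56, mu N r * gam T z r := by
    have h2 : ∀ r ∈ Finset.range 57, mu N r * Vd T z κ N N r =
        (r : ℝ) * mu N r / (1 - z) ^ 2 - mu N r * gam T z r := by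
      intro r _
      rw [Vd_end hz]
      ring
    rw [Finset.sum_congr rfl h2, Finset.sum_sub_distrib, ← Finset.sum_div,
      Finset.sum_range_succ (fun r => mu N r * gam T z r), hg, mul_zero, add_zero]
    rfl
  rw [h1, Sd_end]
  unfold Om
  ring

/-- **DOM** -/
theorem dom (hPot : PotStmt) (hPotEq : PotEqStmt) (hAbel : AbelStmt) (hGF : GreedyFlowStmt) :
    DomStmt := by
  intro T z N hT hz0 hz hg hS hW mu sg hflow hfeas
  have hT0 : 0 < T := by linarith
  obtain ⟨gflow, -, -, gtight⟩ := hGF T hT hS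
  set κ := kap T with hκ
  have hk : ∀ n, 0 < 56 - κ n := fun n => by
    have : κ n < 56 := kap_lt hS n
    omega
  set S := Sd T z κ N with hSd
  set y := yd T z κ N with hyd
  set V := Vd T z κ N with hVd
  set P : ℕ → ℝ := fun n => y n / T with hP
  have hTP : ∀ n, T * P n = y n := fun n => by
    simp only [hP]
    field_simp
  have hPnn : ∀ n, 0 ≤ P n := fun n => div_nonneg (yd_nonneg hT0 hz0 hz κ N n) hT0.le
  have hstep : ∀ n, n < N → S n = S (n + 1) + P n := fun n hn => Sd_step κ N hn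
  -- upper estimate for an arbitrary flow
  have e1 := hPot mu sg V S y 0 N hflow (Nat.zero_le N) (fun n => Vd_zero κ N n)
    (fun n r _ hn h1 h2 => wait_le κ N hW hn (hk n) h1 h2)
    (fun n r _ hn h1 h2 => search_le κ N hW hn (hk n) h1 h2)
  have e2 := hPotEq (gmu T) (gsg T) V S y 0 N gflow (Nat.zero_le N) (fun n => Vd_zero κ N n)
    (fun n r _ hn h1 h2 => by
      rcases le_or_gt (56 - κ n) r with h | h
      · have h3 : V n r = r * S n + V (n + 1) r := Vd_wait κ N hn (hk n) r h
        rw [h3]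
        ring
      · rw [all_search h1 h, zero_mul])
    (fun n r _ hn h1 h2 => by
      rcases le_or_gt r (56 - κ n) with h | h
      · have h3 : V n r = r * S n + r * y n + V (n + 1) (r - 1) := Vd_search κ N hn r h
        rw [h3]
        ring
      · rw [none_search h2 h, zero_mul])
  rw [← Finset.range_eq_Ico] at e1 e2
  have a1 := hAbel T P S mu sg N hstep
  have a2 := hAbel T P S (gmu T) (gsg T) N hstep
  simp only [hTP] at a1 a2
  have i1 : ∀ mu' : ℕ → ℕ → ℝ, ∀ sg', IsFlow mu' sg' →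
      ∑ r ∈ Finset.range 57, mu' 0 r * V 0 r = V 0 56 := by
    intro mu' sg' hf
    rw [Finset.sum_eq_single 56]
    · rw [hf.init]
      simp
    · intro r _ hr
      rw [hf.init, if_neg hr, zero_mul]
    · intro h
      exact absurd (Finset.mem_range.2 (by norm_num)) h
  rw [i1 mu sg hflow, a1] at e1
  rw [i1 _ _ gflow, a2] at e2
  have v1 := end_value hz hg κ N mu
  have v2 := end_value hz hg κ N (gmu T)
  have c1 : ∑ n ∈ Finset.range N, P n * (fC mu n + T * fE sg n) ≤
      ∑ n ∈ Finset.range N, P n * (56 * T) := by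
    refine Finset.sum_le_sum fun n hn => ?_
    exact mul_le_mul_of_nonneg_left (hfeas n (Finset.mem_range.1 hn)) (hPnn n)
  have c2 : ∑ n ∈ Finset.range N, P n * (fC (gmu T) n + T * fE (gsg T) n) =
      ∑ n ∈ Finset.range N, P n * (56 * T) := by
    refine Finset.sum_congr rfl fun n _ => ?_
    rw [gtight n]
  rw [c2] at e2
  linarith

end SA.H10
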