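import Pool.Agent.Helper88_SA.StmtG

/-! SA, module GF: the greedy flow is a flow. -/

namespace SA.H10

open Filter Topology

/-- **Barrier lemma.** -/
theorem barrier {s : St} (hanti : ∀ j, j + 1 < 56 → s.Q (j + 1) ≤ s.Q j) (hval : s.Q 55 ≤ s.B) :
    ∑ j ∈ Finset.range 56, max (s.B - s.Q j) 0 = s.E := by
  have hmono : ∀ i j, i ≤ j → j < 56 → s.Q j ≤ s.Q i := by
    intro i j hij
    induction j, hij using Nat.le_induction with
    | base => exact fun _ => le_rfl
    | succ j hij ih => exact fun h => (hanti j h).trans (ih (by omega))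
  -- the inequalities
  have hle : ∀ k, k < 56 → ∑ j ∈ Finset.Ico k 56, (s.B - s.Q j) ≤ s.E := by
    intro k hk
    have h1 : s.B ≤ (s.E + ∑ j ∈ Finset.Ico k 56, s.Q j) / (56 - (k : ℝ)) :=
      Finset.inf'_le _ (Finset.mem_range.2 hk)
    have h2 : (0 : ℝ) < 56 - (k : ℝ) := by
      have : (k : ℝ) < 56 := by exact_mod_cast hk
      linarith
    rw [le_div_iff₀ h2] at h1
    rw [Finset.sum_sub_distrib, Finset.sum_const, Nat.card_Ico, nsmul_eq_mul,
      Nat.cast_sub (by omega)]
    push_cast
    linarith
  obtain ⟨k, hk, hk2⟩ : ∃ k < 56, s.E ≤ ∑ j ∈ Finset.Ico k 56, (s.B - s.Q j) := by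
    obtain ⟨k, hk, hk2⟩ := Finset.exists_mem_eq_inf' (s := Finset.range 56) ⟨0, by simp⟩
      (fun k : ℕ => (s.E + ∑ j ∈ Finset.Ico k 56, s.Q j) / (56 - (k : ℝ)))
    rw [Finset.mem_range] at hk
    refine ⟨k, hk, ?_⟩
    have h1 : s.B = (s.E + ∑ j ∈ Finset.Ico k 56, s.Q j) / (56 - (k : ℝ)) := hk2
    have h2 : (0 : ℝ) < 56 - (k : ℝ) := by
      have : (k : ℝ) < 56 := by exact_mod_cast hk
      linarith
    rw [eq_div_iff h2.ne'] at h1
    rw [Finset.sum_sub_distrib, Finset.sum_const, Nat.card_Ico, nsmul_eq_mul,
      Nat.cast_sub (by omega)]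
    push_cast
    linarith
  apply le_antisymm
  · -- first index below the barrier
    have hex : ∃ k, k < 56 ∧ s.Q k ≤ s.B := ⟨55, by norm_num, hval⟩
    classical
    set k₀ := Nat.find hex with hk₀
    obtain ⟨h1, h2⟩ := Nat.find_spec hex
    have h3 : ∀ j < k₀, j < 56 → s.B < s.Q j := by
      intro j hj hj56
      have := Nat.find_min hex hj
      by_contra hcon
      exact this ⟨hj56, not_lt.1 hcon⟩
    have h4 : ∑ j ∈ Finset.range 56, max (s.B - s.Q j) 0 =
        ∑ j ∈ Finset.Ico k₀ 56, (s.B - s.Q j) := by
      rw [← Finset.sum_range_add_sum_Ico _ h1.le]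
      have h5 : ∑ j ∈ Finset.range k₀, max (s.B - s.Q j) 0 = 0 := by
        refine Finset.sum_eq_zero fun j hj => ?_
        rw [Finset.mem_range] at hj
        have := h3 j hj (by omega)
        exact max_eq_right (by linarith)
      rw [h5, zero_add]
      refine Finset.sum_congr rfl fun j hj => ?_
      rw [Finset.mem_Ico] at hj
      have := hmono k₀ j hj.1 hj.2
      exact max_eq_left (by linarith)
    rw [h4]
    exact hle k₀ h1
  · refine hk2.trans ?_
    refine (Finset.sum_le_sum fun j _ => le_max_left (s.B - s.Q j) 0).trans ?_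
    refine Finset.sum_le_sum_of_subset_of_nonneg (fun j hj => ?_) (fun j _ _ => le_max_right _ _)
    rw [Finset.mem_Ico] at hj
    exact Finset.mem_range.2 hj.2

/-- insertion as a difference -/
theorem ins_zero (s : St) : s.ins 0 = s.Q 0 + s.B - min (s.Q 0) s.B := by
  have := min_add_max (s.Q 0) s.B
  simp only [St.ins, if_true]
  linarith

theorem ins_succ (s : St) {j : ℕ} (hj : j + 1 < 56) (h : s.Q (j + 1) ≤ s.Q j) :
    s.ins (j + 1) = s.Q (j + 1) + min (s.Q j) s.B - min (s.Q (j + 1)) s.B := by
  simp only [St.ins, Nat.add_eq_zero_iff, one_ne_zero, and_false, if_false, if_pos hj,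
    Nat.add_sub_cancel]
  rcases le_total (s.Q (j + 1)) s.B with h1 | h1
  · rw [min_eq_left h1, max_eq_right (le_min h h1)]
    ring
  · rw [min_eq_right h1, min_eq_right (h1.trans h), max_eq_left h1]
    ring

section

variable {T : ℝ}

theorem anti (n : ℕ) : ∀ j, j + 1 < 56 → (gr T n).Q (j + 1) ≤ (gr T n).Q j := by
  induction n with
  | zero => exact fun j _ => le_rfl
  | succ n ih =>
    intro j hj
    change (gr T n).ins (j + 1) ≤ (gr T n).ins j
    have h1 : (gr T n).ins (j + 1) =
        max ((gr T n).Q (j + 1)) (min ((gr T n).Q j) (gr T n).B) := by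
      simp only [St.ins, Nat.add_eq_zero_iff, one_ne_zero, and_false, if_false, if_pos hj,
        Nat.add_sub_cancel]
    have h2 : (gr T n).Q j ≤ (gr T n).ins j := by
      simp only [St.ins, if_pos (show j < 56 by omega)]
      split_ifs with h
      · subst h
        exact le_max_left _ _
      · exact le_max_left _ _
    rw [h1]
    exact max_le ((ih j hj).trans h2) ((min_le_left _ _).trans h2)

theorem anti' (n : ℕ) {i j : ℕ} (hij : i ≤ j) (hj : j < 56) : (gr T n).Q j ≤ (gr T n).Q i := by
  induction j, hij using Nat.le_induction with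
  | base => exact le_rfl
  | succ j hij ih => exact (anti n j hj).trans (ih (by omega))

theorem nonneg (n : ℕ) : ∀ j, j < 56 → 0 ≤ (gr T n).Q j := by
  induction n with
  | zero => exact fun j _ => le_rfl
  | succ n ih =>
    intro j hj
    change 0 ≤ (gr T n).ins j
    simp only [St.ins, if_pos hj]
    split_ifs with h
    · subst h
      exact (ih 0 hj).trans (le_max_left _ _)
    · exact (ih j hj).trans (le_max_left _ _)

variable (hS : Struct T)

include hS

theorem leone (n : ℕ) : ∀ j, j < 56 → (gr T n).Q j ≤ 1 := by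
  induction n with
  | zero => exact fun j _ => zero_le_one
  | succ n ih =>
    intro j hj
    change (gr T n).ins j ≤ 1
    simp only [St.ins, if_pos hj]
    split_ifs with h
    · exact max_le (ih 0 (by norm_num)) (hS.le_one n)
    · exact max_le (ih j hj) ((min_le_right _ _).trans (hS.le_one n))

theorem bsum (n : ℕ) :
    ∑ j ∈ Finset.range 56, ((gr T n).B - min (gr T n).B ((gr T n).Q j)) = (gr T n).E := by
  rw [← barrier (anti n) (hS.valid n)]
  refine Finset.sum_congr rfl fun j _ => ?_
  have := min_add_max (gr T n).B ((gr T n).Q j)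
  have h2 : max ((gr T n).B - (gr T n).Q j) 0 = max (gr T n).B ((gr T n).Q j) - (gr T n).Q j := by
    rw [max_sub_sub_right ((gr T n).B) ((gr T n).Q j) ((gr T n).Q j) |>.symm, sub_self]
  rw [h2]
  linarith

end

/-- Abel summation over the classes -/
theorem abel_class (h : ℕ → ℝ) (N : ℕ) : ∑ r ∈ Finset.range (N + 1), (r : ℝ) * (h r - h (r + 1)) =
    ∑ r ∈ Finset.range N, h (r + 1) - N * h (N + 1) := by
  induction N with
  | zero => simp
  | succ N ih =>
    rw [Finset.sum_range_succ, ih, Finset.sum_range_succ]
    push_cast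
    ring

/-- masses as differences -/
noncomputable def hm (T : ℝ) (n r : ℕ) : ℝ := if r ≤ 56 then 1 - (gr T n).Q (56 - r) else 0

noncomputable def hs (T : ℝ) (n r : ℕ) : ℝ :=
  if r ≤ 56 then (gr T n).B - min (gr T n).B ((gr T n).Q (56 - r)) else 0

theorem gmu_eq (T : ℝ) (n : ℕ) {r : ℕ} (h0 : r ≠ 0) (hr : r ≤ 56) :
    gmu T n r = hm T n r - hm T n (r + 1) := by
  unfold gmu hm
  rw [if_neg h0, if_pos hr]
  rcases lt_or_eq_of_le hr with h | h
  · rw [if_pos h, if_pos (by omega : r + 1 ≤ 56), show 56 - (r + 1) = 55 - r by omega]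
    ring
  · subst h
    simp

theorem gsg_eq (T : ℝ) (n : ℕ) {r : ℕ} (h0 : r ≠ 0) (hr : r ≤ 56) :
    gsg T n r = hs T n r - hs T n (r + 1) := by
  unfold gsg hs
  rw [if_neg h0, if_pos hr]
  rcases lt_or_eq_of_le hr with h | h
  · rw [if_pos h, if_pos (by omega : r + 1 ≤ 56), show 56 - (r + 1) = 55 - r by omega]
    ring
  · subst h
    have := min_add_max (gr T n).B ((gr T n).Q 0)
    simp only [lt_irrefl, if_false, if_true, Nat.sub_self]
    rw [if_neg (by norm_num)]
    linarith

theorem sum_mu (T : ℝ) (n : ℕ) : fR (gmu T) n = (gr T n).R := by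
  have h1 : fR (gmu T) n = ∑ r ∈ Finset.range (56 + 1), (r : ℝ) * (hm T n r - hm T n (r + 1)) := by
    refine Finset.sum_congr rfl fun r hr => ?_
    rw [Finset.mem_range] at hr
    rcases Nat.eq_zero_or_pos r with h | h
    · subst h
      simp
    · rw [gmu_eq T n h.ne' (by omega)]
  rw [h1, abel_class]
  have h2 : hm T n (56 + 1) = 0 := by simp [hm]
  rw [h2, mul_zero, sub_zero]
  have h3 : ∀ r ∈ Finset.range 56, hm T n (r + 1) = 1 - (gr T n).Q (56 - 1 - r) := by
    intro r hr
    rw [Finset.mem_range] at hr
    unfold hm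
    rw [if_pos (by omega), show 56 - (r + 1) = 56 - 1 - r by omega]
  rw [Finset.sum_congr rfl h3, Finset.sum_range_reflect (fun j => 1 - (gr T n).Q j) 56,
    Finset.sum_sub_distrib]
  simp [St.R]

theorem sum_sg {T : ℝ} (hS : Struct T) (n : ℕ) : fE (gsg T) n = (gr T n).E := by
  have h1 : fE (gsg T) n = ∑ r ∈ Finset.range (56 + 1), (r : ℝ) * (hs T n r - hs T n (r + 1)) := by
    refine Finset.sum_congr rfl fun r hr => ?_
    rw [Finset.mem_range] at hr
    rcases Nat.eq_zero_or_pos r with h | h
    · subst h
      simp
    · rw [gsg_eq T n h.ne' (by omega)]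
  rw [h1, abel_class]
  have h2 : hs T n (56 + 1) = 0 := by simp [hs]
  rw [h2, mul_zero, sub_zero]
  have h3 : ∀ r ∈ Finset.range 56, hs T n (r + 1) =
      (gr T n).B - min (gr T n).B ((gr T n).Q (56 - 1 - r)) := by
    intro r hr
    rw [Finset.mem_range] at hr
    unfold hs
    rw [if_pos (by omega), show 56 - (r + 1) = 56 - 1 - r by omega]
  rw [Finset.sum_congr rfl h3,
    Finset.sum_range_reflect (fun j => (gr T n).B - min (gr T n).B ((gr T n).Q j)) 56, bsum hS]

theorem R_succ (T : ℝ) (n : ℕ) : (gr T (n + 1)).E = (gr T n).E - (gr T (n + 1)).R / T := rfl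

theorem cum {T : ℝ} (hT : 1 < T) (hS : Struct T) (n : ℕ) :
    fC (gmu T) n + T * fE (gsg T) n = 56 * T := by
  have hT0 : T ≠ 0 := by linarith
  induction n with
  | zero =>
    rw [sum_sg hS]
    simp only [fC, zero_add, Finset.sum_range_one]
    rw [sum_mu]
    simp only [gr, St.R, Finset.sum_const_zero, sub_zero]
    field_simp
    ring
  | succ n ih =>
    have h1 : fC (gmu T) (n + 1) = fC (gmu T) n + fR (gmu T) (n + 1) := by
      simp only [fC]
      rw [Finset.sum_range_succ]
    rw [sum_sg hS] at ih
    rw [h1, sum_sg hS, sum_mu, R_succ]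
    field_simp
    linarith

theorem isFlow {T : ℝ} (hS : Struct T) : IsFlow (gmu T) (gsg T) where
  init r := by
    unfold gmu
    simp only [gr, sub_zero]
    split_ifs <;> first | rfl | omega
  sg_nonneg n r := by
    unfold gsg
    split_ifs with h0 h1 h2
    · exact le_rfl
    · exact sub_nonneg.2 (min_le_min_left _ (anti' n (by omega) (by omega)))
    · exact sub_nonneg.2 (le_max_right _ _)
    · exact le_rfl
  sg_le n r := by
    unfold gsg gmu
    split_ifs with h0 h1 h2
    · exact nonneg n 55 (by norm_num)
    · have h3 : (gr T n).Q (56 - r) ≤ (gr T n).Q (55 - r) := anti' n (by omega) (by omega)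
      rcases le_total (gr T n).B ((gr T n).Q (55 - r)) with h4 | h4
      · rw [min_eq_left h4]
        rcases le_total (gr T n).B ((gr T n).Q (56 - r)) with h5 | h5
        · rw [min_eq_left h5]
          linarith
        · rw [min_eq_right h5]
          linarith
      · rw [min_eq_right h4, min_eq_right (h3.trans h4)]
    · exact sub_le_sub_right (max_le (hS.le_one n) (leone hS n 0 (by norm_num))) _
    · exact le_rfl
  sg_zero n := by simp [gsg]
  top n r hr := by
    unfold gmu
    rw [if_neg (by omega), if_neg (by omega), if_neg (by omega)]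
  step n r := by
    rcases Nat.eq_zero_or_pos r with h0 | h0
    · subst h0
      have h1 : gmu T (n + 1) 0 = (gr T n).ins 55 := rfl
      have h2 : gmu T n 0 = (gr T n).Q 55 := rfl
      have h3 : gsg T n 0 = 0 := rfl
      have h4 : gsg T n (0 + 1) = min (gr T n).B ((gr T n).Q 54) -
          min (gr T n).B ((gr T n).Q 55) := rfl
      rw [h1, h2, h3, h4, ins_succ (gr T n) (j := 54) (by norm_num) (anti n 54 (by norm_num)),
        min_comm (gr T n).B, min_comm (gr T n).B]
      ring
    · rcases lt_or_ge r 57 with h57 | h57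
      · rw [gmu_eq T (n + 1) h0.ne' (by omega), gmu_eq T n h0.ne' (by omega),
          gsg_eq T n h0.ne' (by omega)]
        have h5 : gsg T n (r + 1) = hs T n (r + 1) - hs T n (r + 1 + 1) := by
          rcases lt_or_ge r 56 with h | h
          · exact gsg_eq T n (by omega) (by omega)
          · have hr : r = 56 := by omega
            subst hr
            simp [gsg, hs]
        rw [h5]
        -- the key identity
        have key : ∀ r, 1 ≤ r → r ≤ 57 → hm T (n + 1) r = hm T n r - hs T n r + hs T n (r + 1) := by
          intro r hr1 hr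
          rcases Nat.lt_or_ge r 56 with h | h
          · have e1 : hm T (n + 1) r = 1 - (gr T n).ins (56 - r) := by
              unfold hm
              rw [if_pos (by omega)]
              rfl
            have e2 : 56 - r = (55 - r) + 1 := by omega
            have e3 : hm T n r = 1 - (gr T n).Q (55 - r + 1) := by
              unfold hm
              rw [if_pos (by omega), e2]
            have e4 : hs T n r = (gr T n).B - min (gr T n).B ((gr T n).Q (55 - r + 1)) := by
              unfold hs
              rw [if_pos (by omega), e2]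
            have e5 : hs T n (r + 1) = (gr T n).B - min (gr T n).B ((gr T n).Q (55 - r)) := by
              unfold hs
              rw [if_pos (by omega), show 56 - (r + 1) = 55 - r by omega]
            rw [e1, e2, ins_succ (gr T n) (by omega) (anti n _ (by omega)), e3, e4, e5,
              min_comm (gr T n).B, min_comm (gr T n).B]
            ring
          · rcases Nat.lt_or_ge r 57 with h' | h'
            · have hr : r = 56 := by omega
              subst hr
              have e1 : hm T (n + 1) 56 = 1 - (gr T n).ins 0 := rfl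
              have e3 : hm T n 56 = 1 - (gr T n).Q 0 := rfl
              have e4 : hs T n 56 = (gr T n).B - min (gr T n).B ((gr T n).Q 0) := rfl
              have e5 : hs T n (56 + 1) = 0 := rfl
              rw [e1, e3, e4, e5, ins_zero, min_comm (gr T n).B]
              ring
            · have hr : r = 57 := by omega
              subst hr
              have e1 : hm T (n + 1) 57 = 0 := rfl
              have e3 : hm T n 57 = 0 := rfl
              have e4 : hs T n 57 = 0 := rfl
              have e5 : hs T n (57 + 1) = 0 := rfl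
              rw [e1, e3, e4, e5]
              ring
        rw [key r (by omega) (by omega), key (r + 1) (by omega) (by omega)]
        ring
      · have h1 : gmu T (n + 1) r = 0 := by
          unfold gmu
          rw [if_neg (by omega), if_neg (by omega), if_neg (by omega)]
        have h2 : gmu T n r = 0 := by
          unfold gmu
          rw [if_neg (by omega), if_neg (by omega), if_neg (by omega)]
        have h3 : gsg T n r = 0 := by
          unfold gsg
          rw [if_neg (by omega), if_neg (by omega), if_neg (by omega)]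
        have h4 : gsg T n (r + 1) = 0 := by
          unfold gsg
          rw [if_neg (by omega), if_neg (by omega), if_neg (by omega)]
        rw [h1, h2, h3, h4]
        ring

/-- **GF** -/
theorem gf : GreedyFlowStmt := fun T hT hS =>
  ⟨isFlow hS, sum_mu T, sum_sg hS, cum hT hS⟩

end SA.H10
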