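import Pool.Agent.Helper10_SA.LB

/-! SA, module GFIN: assembly of the part GAME. -/

namespace SA.H10

open Filter Topology

/-- **GFIN** -/
theorem gfin : GameFinStmt := by
  intro hPsi hGF hUb hLb hRatio hKick hKpos hGam hGain hGeo hStruct hDual T p q heq hgeo
  obtain ⟨Ts, hlo, hhi, hS⟩ := hStruct
  have hT : T = Ts := le_antisymm (hUb Ts hlo hS T p q heq) (hLb hDual Ts hlo hhi hS T p q heq)
  subst hT
  have hT1 : 1 < T := lt_of_lt_of_le Tlo_gt hlo
  have hT0 : 0 < T := by linarith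
  obtain ⟨x, z, hx, hgt⟩ := hgeo
  obtain ⟨hz0, hz1, hPsi'⟩ := hPsi T p q x z heq ⟨hx, hgt⟩
  have hg := hRatio T p q x z hT1 heq ⟨hx, hgt⟩ hS
  obtain ⟨hflow, hR, hE, hcum⟩ := hGF T hT1 hS
  have hfeas : ∀ N, FeasibleTo T (gmu T) (gsg T) N := fun N n _ => (hcum n).le
  have hgnn : ∀ r, r ≤ 56 → 0 ≤ gam T z r := by
    intro r hr
    rcases Nat.eq_zero_or_pos r with h | h
    · subst h
      exact le_rfl
    · rcases lt_or_eq_of_le hr with h' | h'
      · exact (hGam T z hT0 hz0 hz1 hg r h (by omega)).le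
      · rw [h', hg]
  have hPO : ∀ n, Psi T z (gmu T) n = Om T z (gmu T) n := by
    intro n
    unfold Psi Om
    congr 1
    rw [Finset.sum_range_succ, hGain T z hT0 hz0 hz1 hg 56 le_rfl, hg, mul_zero, add_zero]
    refine Finset.sum_congr rfl fun r hr => ?_
    rw [Finset.mem_range] at hr
    rw [hGain T z hT0 hz0 hz1 hg r (by omega)]
  have hzero : ∀ n, x ≤ n → Om T z (gmu T) n = 0 := by
    intro n hn
    apply le_antisymm
    · rw [← hPO]
      exact hPsi' _ _ n hflow hn (hfeas n)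
    · exact hGeo T z _ _ hT0 hz0 hz1 hgnn hg hflow hfeas n
  obtain ⟨n, hn, hk⟩ := hS.kap_inf x
  have h1 := hKick T z hT1 hz0 hz1 hg hS n
  rw [hzero n hn, hzero (n + 1) (by omega)] at h1
  have h2 := (hKpos T z hT1 hz0 hz1 hg hS n).2 hk
  have h3 := mul_pos (by linarith : 0 < 1 - z) h2
  linarith

end SA.H10
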