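import Pool.Agent.Helper88_SA.StmtD

/-! SA, module INITW: the certificate in the initial phase, by integer interval arithmetic. -/

namespace SA.H10

/-- evaluation of a natural number before use -/
def fc {α : Type} (n : ℕ) (f : ℕ → α) : α := Nat.casesOn n (f 0) fun m => f (m + 1)

theorem fc_eq {α : Type} (n : ℕ) (f : ℕ → α) : fc n f = f n := by
  cases n <;> rfl

/-- the checks at one state -/
def chk (k yl yh : ℕ) : ℕ → List ℕ → List ℕ → Bool
  | r, a :: as, b :: bs =>
    (if r < k then Nat.ble (r * yh) a else if k < r then Nat.ble b (r * yl) else true) &&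
      chk k yl yh (r + 1) as bs
  | _, _, _ => true

/-- one entry of the next list -/
def ent (k c d r prev a : ℕ) : ℕ := if r = 0 then 0 else if r ≤ k then c + prev else d + a

def nxt (k c d : ℕ) : ℕ → ℕ → List ℕ → List ℕ
  | _, _, [] => []
  | r, prev, a :: as => ent k c d r prev a :: nxt k c d (r + 1) a as

def nxtK {α : Type} (k c d : ℕ) : List ℕ → ℕ → ℕ → (List ℕ → α) → α
  | [], _, _, f => f []
  | a :: as, r, prev, f =>
    fc (ent k c d r prev a) fun v => nxtK k c d as (r + 1) a fun t => f (v :: t)

theorem nxtK_eq {α : Type} (k c d : ℕ) (l : List ℕ) : ∀ (r prev : ℕ) (f : List ℕ → α),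
    nxtK k c d l r prev f = f (nxt k c d r prev l) := by
  induction l with
  | nil => exact fun _ _ _ => rfl
  | cons a as ih =>
    intro r prev f
    simp only [nxtK, nxt, fc_eq, ih]

theorem nxt_length (k c d : ℕ) (l : List ℕ) : ∀ r prev, (nxt k c d r prev l).length = l.length := by
  induction l with
  | nil => exact fun _ _ => rfl
  | cons a as ih =>
    intro r prev
    simp only [nxt, List.length_cons, ih]

theorem nxt_getD (k c d : ℕ) (l : List ℕ) : ∀ r prev i, i < l.length →
    (nxt k c d r prev l).getD i 0 =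
      ent k c d (r + i) (if i = 0 then prev else l.getD (i - 1) 0) (l.getD i 0) := by
  induction l with
  | nil =>
    intro r prev i hi
    exact absurd hi (Nat.not_lt_zero _)
  | cons a as ih =>
    intro r prev i hi
    cases i with
    | zero => simp [nxt]
    | succ i =>
      simp only [nxt, List.getD_cons_succ]
      rw [ih (r + 1) a i (by simpa using hi)]
      have h1 : r + 1 + i = r + (i + 1) := by omega
      rw [h1]
      congr 1
      cases i with
      | zero => simp
      | succ i => simp

theorem chk_spec (k yl yh : ℕ) (la : List ℕ) : ∀ (lb : List ℕ) (r : ℕ), la.length = lb.length →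
    chk k yl yh r la lb = true → ∀ i, i < la.length →
      (r + i < k → (r + i) * yh ≤ la.getD i 0) ∧ (k < r + i → lb.getD i 0 ≤ (r + i) * yl) := by
  induction la with
  | nil =>
    intro lb r _ _ i hi
    exact absurd hi (Nat.not_lt_zero _)
  | cons a as ih =>
    intro lb r hlen h i hi
    cases lb with
    | nil => simp at hlen
    | cons b bs =>
      simp only [chk, Bool.and_eq_true] at h
      obtain ⟨h1, h2⟩ := h
      cases i with
      | zero =>
        simp only [add_zero, List.getD_cons_zero]
        constructor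
        · intro hr
          rw [if_pos hr] at h1
          exact Nat.le_of_ble_eq_true h1
        · intro hr
          rw [if_neg (by omega), if_pos hr] at h1
          exact Nat.le_of_ble_eq_true h1
      | succ i =>
        have := ih bs (r + 1) (by simpa using hlen) h2 i (by simpa using hi)
        have h3 : r + 1 + i = r + (i + 1) := by omega
        rw [h3] at this
        simpa only [List.getD_cons_succ] using this

/-- the run of the integer recursion from state `m` down to state `0` -/
def run : ℕ → ℕ → ℕ → List ℕ → List ℕ → Bool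
  | 0, _, _, _, _ => true
  | m + 1, Sl, Sh, Dl, Dh =>
    fc (56 - kap0 m) fun k => fc (Dl.getD k 0 / k) fun yl =>
      fc ((Dh.getD k 0 + (k - 1)) / k) fun yh =>
      fc (Sl + yl * 1000000000 / 36954776204) fun Sl' =>
      fc (Sh + (yh * 1000000000 + 36954776202) / 36954776203) fun Sh' =>
      (decide (0 < k) && chk k yl yh 0 Dl Dh) &&
      nxtK k (Sl' + yl) Sl' Dl 0 0 fun Dl' =>
        nxtK k (Sh' + yh) Sh' Dh 0 0 fun Dh' => run m Sl' Sh' Dl' Dh'

theorem run_true : run 171 1000000000 1000000000 Dlo Dhi = true := by decide +kernel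

theorem T_bounds {T : ℝ} (hlo : Tlo ≤ T) (hhi : T ≤ Thi) :
    36954776203 / 1000000000 ≤ T ∧ T ≤ 36954776204 / 1000000000 := by
  constructor
  · refine le_trans ?_ hlo
    unfold Tlo Tm
    norm_num
  · refine hhi.trans ?_
    unfold Thi Tm
    norm_num

/-- rounding up -/
theorem le_mul_ceil (a k : ℕ) (hk : 0 < k) : a ≤ k * ((a + (k - 1)) / k) := by
  have h := Nat.lt_mul_div_succ (a + (k - 1)) hk
  rw [Nat.mul_add, Nat.mul_one] at h
  omega

/-- the bounds at state `m`, relative to `s = S 171` -/
structure Inv (s : ℝ) (S : ℕ → ℝ) (D : ℕ → ℕ → ℝ) (m Sl Sh : ℕ) (Dl Dh : List ℕ) : Prop where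
  ll : Dl.length = 57
  lh : Dh.length = 57
  sl : (Sl : ℝ) * s ≤ 1000000000 * S m
  sh : 1000000000 * S m ≤ (Sh : ℝ) * s
  dl : ∀ r, r ≤ 56 → (Dl.getD r 0 : ℝ) * s ≤ 1000000000 * D m r
  dh : ∀ r, r ≤ 56 → 1000000000 * D m r ≤ (Dh.getD r 0 : ℝ) * s

theorem sem {T z : ℝ} {κ : ℕ → ℕ} {N : ℕ} {S y : ℕ → ℝ} {D : ℕ → ℕ → ℝ} (hlo : Tlo ≤ T)
    (hhi : T ≤ Thi) (hD : DualSol T z κ N S y D) (hκ : ∀ n, n < 171 → κ n = kap0 n) {s : ℝ}
    (hs : 0 < s) : ∀ m ≤ 171, ∀ (Sl Sh : ℕ) (Dl Dh : List ℕ), Inv s S D m Sl Sh Dl Dh →
      run m Sl Sh Dl Dh = true → ∀ n < m, WAt κ y D n := by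
  obtain ⟨hTA, hTB⟩ := T_bounds hlo hhi
  have hT : 0 < T := by linarith
  intro m
  induction m with
  | zero => exact fun _ _ _ _ _ _ _ n hn => absurd hn (Nat.not_lt_zero _)
  | succ m ih =>
    intro hm Sl Sh Dl Dh hI hrun
    simp only [run, fc_eq, nxtK_eq, Bool.and_eq_true, decide_eq_true_eq] at hrun
    rw [← hκ m (by omega)] at hrun
    set k := 56 - κ m with hk
    set yl := Dl.getD k 0 / k with hyl
    set yh := (Dh.getD k 0 + (k - 1)) / k with hyh
    set Sl' := Sl + yl * 1000000000 / 36954776204 with hSl'
    set Sh' := Sh + (yh * 1000000000 + 36954776202) / 36954776203 with hSh'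
    obtain ⟨⟨hk0, hchk⟩, hrest⟩ := hrun
    have hk56 : k ≤ 56 := by omega
    have hkR : (0 : ℝ) < (k : ℝ) := by exact_mod_cast hk0
    -- bounds of `y`
    have hy : y m = D (m + 1) k / (k : ℝ) := hD.y_def m
    have hyk : (k : ℝ) * y m = D (m + 1) k := by
      rw [hy]
      field_simp
    have by1 : (yl : ℝ) * s ≤ 1000000000 * y m := by
      have h1 : (yl : ℝ) * (k : ℝ) ≤ (Dl.getD k 0 : ℝ) := by
        have : yl * k ≤ Dl.getD k 0 := Nat.div_mul_le_self _ _
        exact_mod_cast this
      have h2 := mul_le_mul_of_nonneg_right h1 hs.le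
      have h3 := hI.dl k hk56
      rw [← hyk] at h3
      have h4 : (k : ℝ) * ((yl : ℝ) * s) ≤ (k : ℝ) * (1000000000 * y m) := by linarith
      exact le_of_mul_le_mul_left h4 hkR
    have by2 : 1000000000 * y m ≤ (yh : ℝ) * s := by
      have h1 : (Dh.getD k 0 : ℝ) ≤ (k : ℝ) * (yh : ℝ) := by
        have := le_mul_ceil (Dh.getD k 0) k hk0
        exact_mod_cast this
      have h2 := mul_le_mul_of_nonneg_right h1 hs.le
      have h3 := hI.dh k hk56
      rw [← hyk] at h3
      have h4 : (k : ℝ) * (1000000000 * y m) ≤ (k : ℝ) * ((yh : ℝ) * s) := by linarith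
      exact le_of_mul_le_mul_left h4 hkR
    -- bounds of `S`
    have hSm := hD.S_step m
    have bS1 : (Sl' : ℝ) * s ≤ 1000000000 * S m := by
      have h1 : ((yl * 1000000000 / 36954776204 : ℕ) : ℝ) * 36954776204 ≤
          (yl : ℝ) * 1000000000 := by
        have : (yl * 1000000000 / 36954776204) * 36954776204 ≤ yl * 1000000000 :=
          Nat.div_mul_le_self _ _
        exact_mod_cast this
      set c := ((yl * 1000000000 / 36954776204 : ℕ) : ℝ) with hc
      have hc0 : 0 ≤ c := Nat.cast_nonneg _
      have h2 : c * T ≤ (yl : ℝ) := by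
        have := mul_le_mul_of_nonneg_left hTB hc0
        linarith
      have h3 : c * s ≤ 1000000000 * (y m / T) := by
        rw [mul_div_assoc', le_div_iff₀ hT]
        have := mul_le_mul_of_nonneg_right h2 hs.le
        linarith
      have h4 : (Sl' : ℝ) = Sl + c := by
        rw [hSl', hc]
        push_cast
        ring
      rw [h4, hSm]
      have := hI.sl
      linarith
    have bS2 : 1000000000 * S m ≤ (Sh' : ℝ) * s := by
      have h1 : (yh : ℝ) * 1000000000 ≤
          36954776203 * (((yh * 1000000000 + 36954776202) / 36954776203 : ℕ) : ℝ) := by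
        have := le_mul_ceil (yh * 1000000000) 36954776203 (by norm_num)
        have h2 : (yh * 1000000000 : ℕ) ≤
            36954776203 * ((yh * 1000000000 + 36954776202) / 36954776203) := this
        exact_mod_cast h2
      set c := (((yh * 1000000000 + 36954776202) / 36954776203 : ℕ) : ℝ) with hc
      have hc0 : 0 ≤ c := Nat.cast_nonneg _
      have h2 : (yh : ℝ) ≤ c * T := by
        have := mul_le_mul_of_nonneg_left hTA hc0
        linarith
      have h3 : 1000000000 * (y m / T) ≤ c * s := by
        rw [mul_div_assoc', div_le_iff₀ hT]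
        have := mul_le_mul_of_nonneg_right h2 hs.le
        linarith
      have h4 : (Sh' : ℝ) = Sh + c := by
        rw [hSh', hc]
        push_cast
        ring
      rw [h4, hSm]
      have := hI.sh
      linarith
    -- bounds of `D`
    have hI' : Inv s S D m Sl' Sh' (nxt k (Sl' + yl) Sl' 0 0 Dl) (nxt k (Sh' + yh) Sh' 0 0 Dh) := by
      refine ⟨?_, ?_, bS1, bS2, ?_, ?_⟩
      · rw [nxt_length, hI.ll]
      · rw [nxt_length, hI.lh]
      · intro r hr
        rw [nxt_getD _ _ _ _ _ _ _ (by rw [hI.ll]; omega), zero_add]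
        unfold ent
        split_ifs with h1 h2
        · subst h1
          rw [hD.D_zero]
          simp
        · rw [hD.D_search m r (by omega) h2]
          have := hI.dl (r - 1) (by omega)
          push_cast
          linarith
        · rw [hD.D_wait m r (by omega) hr]
          have := hI.dl r hr
          push_cast
          linarith
      · intro r hr
        rw [nxt_getD _ _ _ _ _ _ _ (by rw [hI.lh]; omega), zero_add]
        unfold ent
        split_ifs with h1 h2
        · subst h1
          rw [hD.D_zero]
          simp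
        · rw [hD.D_search m r (by omega) h2]
          have := hI.dh (r - 1) (by omega)
          push_cast
          linarith
        · rw [hD.D_wait m r (by omega) hr]
          have := hI.dh r hr
          push_cast
          linarith
    intro n hn
    rcases Nat.lt_succ_iff_lt_or_eq.1 hn with h | h
    · exact ih (by omega) _ _ _ _ hI' hrest n h
    · subst h
      intro r h1 h56
      have hc := chk_spec k yl yh Dl Dh 0 (by rw [hI.ll, hI.lh]) hchk r (by rw [hI.ll]; omega)
      rw [zero_add] at hc
      constructor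
      · intro hr
        rcases lt_or_eq_of_le hr with hr' | hr'
        · have h2 := hc.1 hr'
          have h3 : (r : ℝ) * (yh : ℝ) ≤ (Dl.getD r 0 : ℝ) := by exact_mod_cast h2
          have h4 := hI.dl r h56
          have h5 := mul_le_mul_of_nonneg_right h3 hs.le
          have h6 := mul_le_mul_of_nonneg_left by2 (Nat.cast_nonneg (α := ℝ) r)
          linarith
        · rw [hr']
          exact hyk.le
      · intro hr
        have h2 := hc.2 hr
        have h3 : (Dh.getD r 0 : ℝ) ≤ (r : ℝ) * (yl : ℝ) := by exact_mod_cast h2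
        have h4 := hI.dh r h56
        have h5 := mul_le_mul_of_nonneg_right h3 hs.le
        have h6 := mul_le_mul_of_nonneg_left by1 (Nat.cast_nonneg (α := ℝ) r)
        linarith

/-- **INITW** -/
theorem initW : InitWStmt := by
  intro T z κ N S y D hlo hhi hD hκ hB
  have hs : 0 < S 171 := hD.S_pos 171
  refine sem hlo hhi hD hκ hs 171 le_rfl 1000000000 1000000000 Dlo Dhi ⟨rfl, rfl, ?_, ?_, ?_, ?_⟩
    run_true
  · push_cast
    exact le_rfl
  · push_cast
    exact le_rfl
  · intro r hr
    have := (hB r hr).1
    norm_num at this ⊢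
    exact this
  · intro r hr
    have := (hB r hr).2
    norm_num at this ⊢
    exact this

end SA.H10
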