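import Pool.Agent.Helper10_SA.GF

/-! SA, module KICK: one step of the potential along the greedy flow. -/

namespace SA.H10

open Filter Topology

/-- **KICK** -/
theorem kickOm (hGF : GreedyFlowStmt) : KickOmStmt := by
  intro T z hT hz0 hz hg hS n
  obtain ⟨hflow, hR, hE, hcum⟩ := hGF T hT hS
  have hz1 : 1 - z ≠ 0 := by linarith
  set mu := gmu T with hmu
  set sg := gsg T with hsg
  -- total searching mass
  set M := ∑ r ∈ Finset.range 57, sg n r with hM
  have hsg57 : sg n 57 = 0 := by
    have h1 := hflow.sg_nonneg n 57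
    have h2 := hflow.sg_le n 57
    rw [hflow.top n 57 (by norm_num)] at h2
    linarith
  have hsg0 : sg n 0 = 0 := hflow.sg_zero n
  -- shift of the classes
  have shift : ∀ f : ℕ → ℝ, ∑ r ∈ Finset.range 57, f r * sg n (r + 1) =
      ∑ r ∈ Finset.range 57, f (r - 1) * sg n r := by
    intro f
    rw [Finset.sum_range_succ, hsg57, mul_zero, add_zero,
      Finset.sum_range_succ' (fun r => f (r - 1) * sg n r) 56, hsg0, mul_zero, add_zero]
    simp
  have hR1 : fR mu (n + 1) = fR mu n - M := by
    unfold fR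
    have h1 : ∀ r ∈ Finset.range 57, (r : ℝ) * mu (n + 1) r =
        (r : ℝ) * mu n r - (r : ℝ) * sg n r + (r : ℝ) * sg n (r + 1) := by
      intro r _
      rw [hflow.step]
      ring
    rw [Finset.sum_congr rfl h1, Finset.sum_add_distrib, Finset.sum_sub_distrib, shift (fun r => r)]
    have h2 : ∀ r ∈ Finset.range 57, (((r - 1 : ℕ) : ℝ)) * sg n r =
        (r : ℝ) * sg n r - sg n r := by
      intro r _
      rcases Nat.eq_zero_or_pos r with h | h
      · subst h
        rw [hsg0]
        simp
      · rw [Nat.cast_sub h]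
        push_cast
        ring
    rw [Finset.sum_congr rfl h2, Finset.sum_sub_distrib]
    ring
  have hE1 : T * fE sg n = 56 * T - fC mu n := by linarith [hcum n]
  have hC : ∑ j ∈ Finset.range (n + 1), fR mu j = fC mu n := rfl
  have hC1 : fC mu n = ∑ j ∈ Finset.range n, fR mu j + fR mu n := by
    rw [← hC, Finset.sum_range_succ]
  -- the sum with gam
  have hG : ∀ m : ℕ → ℕ → ℝ, ∑ r ∈ Finset.range 56, m n r * gam T z r =
      ∑ r ∈ Finset.range 57, m n r * gam T z r := by
    intro m
    rw [Finset.sum_range_succ _ 56, hg, mul_zero, add_zero]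
  have hG1 : ∑ r ∈ Finset.range 57, mu (n + 1) r * gam T z r =
      ∑ r ∈ Finset.range 57, (mu n r - sg n r) * gam T z r +
      ∑ r ∈ Finset.range 57, gam T z (r - 1) * sg n r := by
    rw [← shift, ← Finset.sum_add_distrib]
    refine Finset.sum_congr rfl fun r _ => ?_
    rw [hflow.step]
    ring
  have hG2 : z * ∑ r ∈ Finset.range 57, gam T z (r - 1) * sg n r =
      ∑ r ∈ Finset.range 57, sg n r * gam T z r - z / (1 - z) ^ 2 * M + T * fE sg n := by
    rw [hM, Finset.mul_sum, Finset.mul_sum]
    unfold fE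
    rw [Finset.mul_sum, ← Finset.sum_sub_distrib, ← Finset.sum_add_distrib]
    refine Finset.sum_congr rfl fun r _ => ?_
    rcases Nat.eq_zero_or_pos r with h | h
    · subst h
      rw [hsg0]
      ring
    · obtain ⟨r', rfl⟩ : ∃ r', r = r' + 1 := ⟨r - 1, by omega⟩
      rw [Nat.add_sub_cancel]
      have h3 : gam T z (r' + 1) = z / (z - 1) ^ 2 - ((r' : ℝ) + 1) * T + z * gam T z r' := rfl
      have h5 : (z - 1) ^ 2 = (1 - z) ^ 2 := by ring
      rw [h3, h5]
      push_cast
      ring
  have hG3 : ∀ m : ℕ → ℝ, ∑ r ∈ Finset.range 56, m r * gam T z r =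
      ∑ r ∈ Finset.range 57, m r * gam T z r := by
    intro m
    rw [Finset.sum_range_succ _ 56, hg, mul_zero, add_zero]
  unfold Om
  rw [hG3 (fun r => mu (n + 1) r), hG3 (fun r => mu n r), hG3 (fun r => mu n r - sg n r), hG1, hR1,
    hC]
  have hsub : ∑ r ∈ Finset.range 57, (mu n r - sg n r) * gam T z r =
      ∑ r ∈ Finset.range 57, mu n r * gam T z r - ∑ r ∈ Finset.range 57, sg n r * gam T z r := by
    rw [← Finset.sum_sub_distrib]
    refine Finset.sum_congr rfl fun r _ => ?_
    ring
  rw [mul_add, mul_add, hG2, hE1, hsub, hC1]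
  field_simp
  ring

end SA.H10
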