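import Pool.Agent.Helper10_SA.GF

/-! SA, module LB: the value is at least the greedy value. -/

namespace SA.H10

open Filter Topology

section

variable {mu sg : ℕ → ℕ → ℝ} (hf : IsFlow mu sg)

include hf

theorem sg57 (n : ℕ) : sg n 57 = 0 := by
  have h1 := hf.sg_nonneg n 57
  have h2 := hf.sg_le n 57
  rw [hf.top n 57 (by norm_num)] at h2
  linarith

theorem mu_nonneg (n r : ℕ) : 0 ≤ mu n r := (hf.sg_nonneg n r).trans (hf.sg_le n r)

theorem fE_nonneg (n : ℕ) : 0 ≤ fE sg n :=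
  Finset.sum_nonneg fun r _ => mul_nonneg (Nat.cast_nonneg r) (hf.sg_nonneg n r)

theorem fE_le (n : ℕ) : fE sg n ≤ fR mu n :=
  Finset.sum_le_sum fun r _ => mul_le_mul_of_nonneg_left (hf.sg_le n r) (Nat.cast_nonneg r)

theorem fR_nonneg (n : ℕ) : 0 ≤ fR mu n := (fE_nonneg hf n).trans (fE_le hf n)

theorem mu_le (n : ℕ) {r : ℕ} (h1 : 1 ≤ r) (h2 : r ≤ 56) : mu n r ≤ fR mu n := by
  have h3 : (r : ℝ) * mu n r ≤ fR mu n :=
    Finset.single_le_sum (f := fun r : ℕ => (r : ℝ) * mu n r)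
      (fun i _ => mul_nonneg (Nat.cast_nonneg i) (mu_nonneg hf n i)) (Finset.mem_range.2 (by omega))
  have h4 : (1 : ℝ) ≤ r := by exact_mod_cast h1
  have h5 := mul_le_mul_of_nonneg_right h4 (mu_nonneg hf n r)
  linarith

theorem fR_succ (n : ℕ) : fR mu (n + 1) = fR mu n - ∑ r ∈ Finset.range 57, sg n r := by
  have shift : ∀ f : ℕ → ℝ, ∑ r ∈ Finset.range 57, f r * sg n (r + 1) =
      ∑ r ∈ Finset.range 57, f (r - 1) * sg n r := by
    intro f
    rw [Finset.sum_range_succ, sg57 hf, mul_zero, add_zero,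
      Finset.sum_range_succ' (fun r => f (r - 1) * sg n r) 56, hf.sg_zero, mul_zero, add_zero]
    simp
  unfold fR
  have h1 : ∀ r ∈ Finset.range 57, (r : ℝ) * mu (n + 1) r =
      (r : ℝ) * mu n r - (r : ℝ) * sg n r + (r : ℝ) * sg n (r + 1) := by
    intro r _
    rw [hf.step]
    ring
  rw [Finset.sum_congr rfl h1, Finset.sum_add_distrib, Finset.sum_sub_distrib, shift (fun r => r)]
  have h2 : ∀ r ∈ Finset.range 57, (((r - 1 : ℕ) : ℝ)) * sg n r =
      (r : ℝ) * sg n r - sg n r := by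
    intro r _
    rcases Nat.eq_zero_or_pos r with h | h
    · subst h
      rw [hf.sg_zero]
      simp
    · rw [Nat.cast_sub h]
      push_cast
      ring
  rw [Finset.sum_congr rfl h2, Finset.sum_sub_distrib]
  ring

theorem fR_le (n : ℕ) : fR mu n ≤ 56 := by
  induction n with
  | zero =>
    unfold fR
    rw [Finset.sum_eq_single 56]
    · rw [hf.init]
      simp
    · intro r _ hr
      rw [hf.init, if_neg hr, mul_zero]
    · intro h
      exact absurd (Finset.mem_range.2 (by norm_num)) h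
  | succ n ih =>
    rw [fR_succ hf]
    have := Finset.sum_nonneg (fun r (_ : r ∈ Finset.range 57) => hf.sg_nonneg n r)
    linarith

end

theorem Tlo_gt : 1 < Tlo := by
  unfold Tlo Tm
  norm_num

/-- the potential of the greedy flow tends to zero -/
theorem Om_tend {T z : ℝ} (hT : 1 < T) (hS : Struct T) (hGF : GreedyFlowStmt) :
    Tendsto (fun n => Om T z (gmu T) n) atTop (𝓝 0) := by
  obtain ⟨hflow, hR, hE, hcum⟩ := hGF T hT hS
  have t1 : Tendsto (fun n => fR (gmu T) n) atTop (𝓝 0) := by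
    simp only [hR]
    exact hS.R_tend
  have t2 : Tendsto (fun n => fE (gsg T) n) atTop (𝓝 0) :=
    squeeze_zero (fun n => fE_nonneg hflow n) (fun n => fE_le hflow n) t1
  have t3 : ∀ r ∈ Finset.range 56, Tendsto (fun n => gmu T n r * gam T z r) atTop (𝓝 0) := by
    intro r hr
    rw [Finset.mem_range] at hr
    rcases Nat.eq_zero_or_pos r with h | h
    · subst h
      simp [gam]
    · have t4 : Tendsto (fun n => gmu T n r) atTop (𝓝 0) :=
        squeeze_zero (fun n => mu_nonneg hflow n r) (fun n => mu_le hflow n h (by omega)) t1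
      simpa using t4.mul_const (gam T z r)
  have t5 := tendsto_finsetSum _ t3
  have t6 : Tendsto (fun n => (T * fE (gsg T) n + fR (gmu T) n) / (1 - z) -
      fR (gmu T) n / (1 - z) ^ 2 + ∑ r ∈ Finset.range 56, gmu T n r * gam T z r) atTop
      (𝓝 ((T * 0 + 0) / (1 - z) - 0 / (1 - z) ^ 2 + ∑ r ∈ Finset.range 56, (0 : ℝ))) :=
    ((((t2.const_mul T).add t1).div_const _).sub (t1.div_const _)).add t5
  have h0 : (T * 0 + 0) / (1 - z) - 0 / (1 - z) ^ 2 + ∑ r ∈ Finset.range 56, (0 : ℝ) = 0 := by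
    simp
  rw [h0] at t6
  refine t6.congr fun n => ?_
  unfold Om
  have h1 : fC (gmu T) n = ∑ j ∈ Finset.range n, fR (gmu T) j + fR (gmu T) n := by
    unfold fC
    rw [Finset.sum_range_succ]
  have h2 : T * fE (gsg T) n + fR (gmu T) n = 56 * T - ∑ j ∈ Finset.range n, fR (gmu T) j := by
    linarith [hcum n]
  rw [h2]

/-- **LB** -/
theorem lb (hFQ : FlowQStmt) (hDom : DomStmt) (hGeo : GeoSlackStmt) (hGF : GreedyFlowStmt)
    (hGam : GamPosStmt) (hZ : ZexStmt) : LbStmt := by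
  intro hDual Ts hlo hhi hS T p q heq
  by_contra hcon
  rw [not_le] at hcon
  have hTs1 : 1 < Ts := lt_of_lt_of_le Tlo_gt hlo
  have hTs : 0 < Ts := by linarith
  have hT := heq.T_pos
  obtain ⟨z, hz0, hz1, hg⟩ := hZ Ts hTs
  have hgnn : ∀ r, r ≤ 56 → 0 ≤ gam Ts z r := by
    intro r hr
    rcases Nat.eq_zero_or_pos r with h | h
    · subst h
      exact le_rfl
    · rcases lt_or_eq_of_le hr with h' | h'
      · exact (hGam Ts z hTs hz0 hz1 hg r h (by omega)).le
      · rw [h', hg]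
  obtain ⟨mu, sg, hf, htend, hpay⟩ := hFQ q heq.q_nonneg heq.q_supp heq.q_sum
  have hfe : ∀ N, FeasibleTo T mu sg N := by
    intro N n _
    rw [hpay T hT n]
    have := heq.hider (n + 1) (by omega)
    linarith
  have hfe' : ∀ N, FeasibleTo Ts mu sg N := by
    intro N n hn
    have h1 := hfe N n hn
    have h2 : fE sg n ≤ 56 := (fE_le hf n).trans (fR_le hf n)
    have h3 : (Ts - T) * fE sg n ≤ (Ts - T) * 56 := mul_le_mul_of_nonneg_left h2 (by linarith)
    linarith
  obtain ⟨δ, hδ, hev⟩ := hGeo Ts T z mu sg hT hcon hz0 hz1 hgnn hg hf hfe htend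
  have hK : KapOK (kap Ts) := ⟨hS.kap_init, hS.kap_quiet, hS.kap_le, hS.kap_sep⟩
  have ht := Om_tend (z := z) hTs1 hS hGF
  have hsmall : ∀ᶠ n in atTop, Om Ts z (gmu Ts) n < δ := ht.eventually_lt_const hδ
  obtain ⟨n, h1, h2, h3⟩ := (hev.and (hsmall.and (eventually_ge_atTop 8001))).exists
  have h4 := hDom Ts z n hTs1 hz0 hz1 hg hS
    (hDual Ts z (kap Ts) hlo hhi hz0 hz1 hg hK n h3) mu sg hf (hfe' n)
  linarith

end SA.H10
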