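import Pool.Agent.Helper10_SA.LB

/-! SA, module UB: the value is at most the greedy value. -/

namespace SA.H10

open Filter Topology

/-- total mass -/
theorem mass {mu sg : ℕ → ℕ → ℝ} (hf : IsFlow mu sg) (n : ℕ) :
    ∑ r ∈ Finset.range 57, mu n r = 1 := by
  induction n with
  | zero =>
    rw [Finset.sum_eq_single 56]
    · rw [hf.init]
      simp
    · intro r _ hr
      rw [hf.init, if_neg hr]
    · intro h
      exact absurd (Finset.mem_range.2 (by norm_num)) h
  | succ n ih =>
    have h1 : ∀ r ∈ Finset.range 57, mu (n + 1) r = mu n r - sg n r + sg n (r + 1) :=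
      fun r _ => hf.step n r
    rw [Finset.sum_congr rfl h1, Finset.sum_add_distrib, Finset.sum_sub_distrib, ih,
      Finset.sum_range_succ (fun r => sg n (r + 1)), sg57 hf,
      Finset.sum_range_succ' (fun r => sg n r) 56, hf.sg_zero]
    ring

/-- **UB** -/
theorem ub (hPot : PotStmt) (hAbel : AbelStmt) (hVp : VpStmt) (hGF : GreedyFlowStmt) : UbStmt := by
  intro Ts hlo hS T p q heq
  by_contra hcon
  rw [not_le] at hcon
  have hTs1 : 1 < Ts := lt_of_lt_of_le Tlo_gt hlo
  obtain ⟨hflow, hR, hE, hcum⟩ := hGF Ts hTs1 hS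
  obtain ⟨V, hV0, hVnn, hVw, hVs, hV56, hVb⟩ := hVp T p q heq
  set mu := gmu Ts with hmu
  set sg := gsg Ts with hsg
  have hT : 0 < T := heq.T_pos
  have hpsum : Summable p := heq.p_sum.summable
  -- tails
  have htail : ∀ n, tailS p n = tailS p (n + 1) + p (n + 1) := by
    intro n
    unfold tailS
    have h1 : Summable fun j => p (n + 1 + j) := by
      have := (summable_nat_add_iff (n + 1)).2 hpsum
      simpa [add_comm] using this
    rw [h1.tsum_eq_zero_add]
    rw [add_zero, add_comm (p (n + 1))]
    congr 1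
    refine tsum_congr fun j => ?_
    congr 1
    ring
  have htail0 : tailS p 0 = 1 := by
    unfold tailS
    have h1 := hpsum.tsum_eq_zero_add
    rw [heq.p_sum.tsum_eq, heq.p_zero, zero_add] at h1
    rw [h1]
    refine tsum_congr fun j => ?_
    congr 1
    ring
  have htend : Tendsto (fun n => tailS p n) atTop (𝓝 0) := by
    have h1 := (tendsto_sum_nat_add p).comp (tendsto_add_atTop_nat 1)
    refine h1.congr fun n => ?_
    refine tsum_congr fun j => ?_
    congr 1
    ring
  have htnn : ∀ n, 0 ≤ tailS p n := fun n => tsum_nonneg fun j => heq.p_nonneg _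
  -- the estimate for every N
  have key : ∀ N, 56 * T ≤ ∑ n ∈ Finset.range N, p (n + 1) * (56 * Ts + (T - Ts) * fE sg n) +
      tailS p N * (56 * Ts + 56 * 56 * (1 + T)) := by
    intro N
    have e1 := hPot mu sg V (fun n => tailS p n) (fun n => T * p (n + 1)) 0 N hflow (Nat.zero_le N)
      hV0 (fun n r _ _ h1 h2 => hVw n r h1 h2) (fun n r _ _ h1 h2 => by
        have := hVs n r h1 h2
        simpa using this)
    rw [← Finset.range_eq_Ico] at e1
    have a1 := hAbel T (fun n => p (n + 1)) (fun n => tailS p n) mu sg N (fun n _ => htail n)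
    rw [a1] at e1
    have i1 : ∑ r ∈ Finset.range 57, mu 0 r * V 0 r = V 0 56 := by
      rw [Finset.sum_eq_single 56]
      · rw [hflow.init]
        simp
      · intro r _ hr
        rw [hflow.init, if_neg hr, zero_mul]
      · intro h
        exact absurd (Finset.mem_range.2 (by norm_num)) h
    rw [i1] at e1
    have e2 : ∑ n ∈ Finset.range N, p (n + 1) * (fC mu n + T * fE sg n) =
        ∑ n ∈ Finset.range N, p (n + 1) * (56 * Ts + (T - Ts) * fE sg n) := by
      refine Finset.sum_congr rfl fun n _ => ?_
      have := hcum n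
      congr 1
      linarith
    rw [e2] at e1
    have e3 : ∑ j ∈ Finset.range N, fR mu j ≤ 56 * Ts := by
      rcases Nat.eq_zero_or_pos N with h | h
      · subst h
        simp only [Finset.range_zero, Finset.sum_empty]
        linarith
      · obtain ⟨N', rfl⟩ : ∃ N', N = N' + 1 := ⟨N - 1, by omega⟩
        have h1 := hcum N'
        have h2 := mul_nonneg (by linarith : 0 ≤ Ts) (fE_nonneg hflow N')
        have h3 : fC mu N' = ∑ j ∈ Finset.range (N' + 1), fR mu j := rfl
        linarith
    have e4 := mul_le_mul_of_nonneg_left e3 (htnn N)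
    have e5 : ∑ r ∈ Finset.range 57, mu N r * V N r ≤ 56 * 56 * (1 + T) * tailS p N := by
      calc ∑ r ∈ Finset.range 57, mu N r * V N r
          ≤ ∑ r ∈ Finset.range 57, mu N r * (56 * 56 * (1 + T) * tailS p N) := by
            refine Finset.sum_le_sum fun r hr => ?_
            rw [Finset.mem_range] at hr
            exact mul_le_mul_of_nonneg_left (hVb N r (by omega)) (mu_nonneg hflow N r)
        _ = 56 * 56 * (1 + T) * tailS p N := by
            rw [← Finset.sum_mul, mass hflow, one_mul]
    linarith
  -- the limit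
  have hE0 : fE sg 0 = 56 - 56 / Ts := by
    rw [hE]
    rfl
  have hR0 : fR mu 0 = 56 := by
    rw [hR]
    simp [gr, St.R]
  have hsum0 : 1 - 1 / Ts ≤ ∑ r ∈ Finset.range 57, sg 0 r := by
    have h1 : fE sg 0 ≤ 56 * ∑ r ∈ Finset.range 57, sg 0 r := by
      rw [Finset.mul_sum]
      refine Finset.sum_le_sum fun r hr => ?_
      rw [Finset.mem_range] at hr
      have : (r : ℝ) ≤ 56 := by exact_mod_cast (by omega : r ≤ 56)
      exact mul_le_mul_of_nonneg_right this (hflow.sg_nonneg 0 r)
    rw [hE0] at h1
    have h2 : 56 / Ts = 56 * (1 / Ts) := by ring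
    linarith
  have hR1 : ∀ n, fR mu (n + 1) ≤ 56 - (1 - 1 / Ts) := by
    intro n
    induction n with
    | zero =>
      rw [fR_succ hflow, hR0]
      linarith
    | succ n ih =>
      rw [fR_succ hflow]
      have := Finset.sum_nonneg (fun r (_ : r ∈ Finset.range 57) => hflow.sg_nonneg (n + 1) r)
      linarith
  have hTs0 : 0 < Ts := by linarith
  have hinv : 1 / Ts < 1 := by
    rw [div_lt_one hTs0]
    exact hTs1
  set ε := min (56 / Ts) (1 - 1 / Ts) with hε
  have hεpos : 0 < ε := lt_min (by positivity) (by linarith)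
  have hEε : ∀ n, fE sg n ≤ 56 - ε := by
    intro n
    cases n with
    | zero =>
      rw [hE0]
      have := min_le_left (56 / Ts) (1 - 1 / Ts)
      linarith
    | succ n =>
      have h1 := min_le_right (56 / Ts) (1 - 1 / Ts)
      have h2 := hR1 n
      have h3 := fE_le hflow (n + 1)
      linarith
  have hpS : ∀ N, ∑ n ∈ Finset.range N, p (n + 1) = 1 - tailS p N := by
    intro N
    induction N with
    | zero => simp [htail0]
    | succ N ih =>
      rw [Finset.sum_range_succ, ih, htail N]
      ring
  have hεle : ε ≤ 56 := by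
    have h1 := min_le_right (56 / Ts) (1 - 1 / Ts)
    have h2 : 0 < 1 / Ts := by positivity
    linarith
  have key2 : ∀ N, 56 * T ≤ 56 * T - (T - Ts) * ε + tailS p N * (56 * Ts + 56 * 56 * (1 + T)) := by
    intro N
    have h1 : ∑ n ∈ Finset.range N, p (n + 1) * (56 * Ts + (T - Ts) * fE sg n) ≤
        ∑ n ∈ Finset.range N, p (n + 1) * (56 * T - (T - Ts) * ε) := by
      refine Finset.sum_le_sum fun n _ => ?_
      refine mul_le_mul_of_nonneg_left ?_ (heq.p_nonneg _)
      have := mul_le_mul_of_nonneg_left (hEε n) (by linarith : 0 ≤ T - Ts)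
      linarith
    rw [← Finset.sum_mul, hpS] at h1
    have h2 : 0 ≤ 56 * T - (T - Ts) * ε := by
      have := mul_le_mul_of_nonneg_left hεle (by linarith : 0 ≤ T - Ts)
      linarith
    have h3 := mul_nonneg (htnn N) h2
    have h4 := key N
    linarith
  have hlim : Tendsto (fun N => 56 * T - (T - Ts) * ε +
      tailS p N * (56 * Ts + 56 * 56 * (1 + T))) atTop
      (𝓝 (56 * T - (T - Ts) * ε + 0 * (56 * Ts + 56 * 56 * (1 + T)))) :=
    (htend.mul_const _).const_add _
  have h5 := ge_of_tendsto' hlim key2
  have h6 : 0 < (T - Ts) * ε := mul_pos (by linarith) hεpos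
  linarith

end SA.H10
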